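import Mathlib
import Pool.Agent.MP_41c3fc_gt.Final
import Pool.Agent.MP_41c3fc_gt.Fund

set_option autoImplicit false

open MeasureTheory Set Filter Topology
open scoped ENNReal

namespace Pool.Agent.Results.MP_41c3fc_gt.NoFiniteAreaMinimalSurface

open Pool.Agent.MP_41c3fc_gt

/-- There is a geometrically infinite hyperbolic 3-manifold `ℍ³/Γ` without cusps which contains no
complete embedded minimal surface of finite area. -/
theorem result : ∃ Γ : Subgroup GL4,
    IsDiscreteTorsionFree Γ ∧ (∃ D, IsFundamentalSet Γ H3 D) ∧ (∀ g ∈ Γ, ¬ IsParabolic g) ∧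
    ¬ GeometricallyFinite Γ ∧ ∀ S : Set V, ¬ IsFiniteAreaMinimal Γ S := by
  obtain ⟨Γ, h1, h2, h3, h4⟩ := main
  exact ⟨Γ, h1, exists_fundamental h1, h2, h3, h4⟩

end Pool.Agent.Results.MP_41c3fc_gt.NoFiniteAreaMinimalSurface
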